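import Mathlib

/-!
# Finite generation in top weight: the strong form, and rational schemes

Q1 of `MP_c71c7a_nt` asks whether `H^i(X_et, ℤ(d))` is finitely generated for all proper regular
connected arithmetic schemes `X` of dimension `d` and `0 ≤ i ≤ 2 d`. The file lists as an additional
condition the vanishing of `H^i(X, ℚ(d))` for `i < 0`, a case of the Beilinson-Soulé conjecture.

We show that Q1 implies its strong form: for all `X`, all weights `m ≥ d` and all `i ≤ 2 m` the group
`H^i(X_et, ℤ(m))` is finitely generated, and it is zero for `i < 0`. So the additional condition is a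
consequence of Q1, also in all weights `m ≥ d`. And already Q1 for the *rational* schemes which are
the blow-up of a projective space over `ℤ` in one regular centre is equivalent to the finite
generation of `H^i(X_et, ℤ(m))`, `i ≤ 2 m`, for all projective `X` and all weights `m > d`; it implies
the vanishing for `i < 0`, and Parshin's conjecture in weights `m > d` for all smooth projective
varieties over finite fields. Both are consequences of exact
criteria for single schemes `X × ℙ^r` and `Bl_X(ℙ^N)`.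

The proof uses only the projective bundle formula and the blow-up formula.
-/

set_option autoImplicit false

open AlgebraicGeometry CategoryTheory CategoryTheory.Limits

namespace Pool.Agent.Results.MP_c71c7a_nt.StrongFormAndRationalSchemes

noncomputable section

/-! ### Schemes -/

attribute [local instance] MvPolynomial.gradedAlgebra

/-- The projective space `ℙ^N` over `ℤ`. -/
def PZ (N : ℕ) : Scheme.{0} := Proj (MvPolynomial.homogeneousSubmodule (Fin (N + 1)) ℤ)

/-- `X` is a proper regular connected arithmetic scheme of dimension `d`. -/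
structure PRC (X : Scheme.{0}) (d : ℕ) : Prop where
  proper : IsProper (specZIsTerminal.from X)
  regular : ∀ x : X, IsRegularLocalRing (X.presheaf.stalk x)
  connected : ConnectedSpace X
  dim : topologicalKrullDim X = d

/-- `D` is (by the closed immersion `j`) an effective Cartier divisor of `T`: its ideal is locally
generated by one element which is not a zero divisor. -/
def IsCartier {D T : Scheme.{0}} (j : D ⟶ T) : Prop :=
  IsClosedImmersion j ∧ ∀ x : T, ∃ U : T.affineOpens, x ∈ U.1 ∧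
    ∃ f ∈ nonZeroDivisors Γ(T, U), j.ker.ideal U = Ideal.span {f}

/-- `π : Y ⟶ P` is the blow-up of `P` in the closed subscheme `X`, by its universal property: the
inverse image of `X` is an effective Cartier divisor, and every morphism `T ⟶ P` with this property
factors through `π` in a unique way. -/
structure IsBlowUp {X P Y : Scheme.{0}} (i : X ⟶ P) (π : Y ⟶ P) : Prop where
  cartier : IsCartier (pullback.snd i π)
  univ : ∀ (T : Scheme.{0}) (f : T ⟶ P), IsCartier (pullback.snd i f) → ∃! g : T ⟶ Y, g ≫ π = f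

/-- `X` is projective over `ℤ`: there are closed immersions in projective spaces of arbitrarily large
dimension. -/
def Projective (X : Scheme.{0}) : Prop :=
  ∀ N₀ : ℕ, ∃ N, N₀ ≤ N ∧ ∃ i : X ⟶ PZ N, IsClosedImmersion i

/-- `Y` is the blow-up of `ℙ^N` over `ℤ` in a regular connected closed subscheme of dimension at most
`N`. So `Y` is birational to `ℙ^N`. -/
def OneBlowUp (N : ℕ) (Y : Scheme.{0}) : Prop :=
  ∃ (d : ℕ) (X : Scheme.{0}) (i : X ⟶ PZ N) (π : Y ⟶ PZ N),
    IsClosedImmersion i ∧ Projective X ∧ PRC X d ∧ d ≤ N ∧ IsBlowUp i π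

/-! ### Étale motivic cohomology -/

/-- Groups `H^i(X_et, ℤ(m))`. -/
structure EtMot where
  H : Scheme.{0} → ℤ → ℕ → Type
  grp : ∀ X i m, AddCommGroup (H X i m)

attribute [instance] EtMot.grp

/-- Known properties of étale motivic cohomology of proper regular connected arithmetic schemes in
weights at least the dimension. For `X` regular of dimension `d` and `m ≥ d` the complex `ℤ(m)` is
`ℤ^c(n)[-2 d]` with `n = d - m ≤ 0`; for `n ≤ 0` the localisation sequence and homotopy invariance hold in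
the étale topology (Geisser, Duality via cycle complexes), and the projective bundle formula and the
blow-up formula follow from them. -/
structure IsEtMot (T : EtMot) : Prop where
  /-- the projective bundle formula for `X × ℙ^r` -/
  bundle : ∀ (X : Scheme.{0}) (d r : ℕ), PRC X d → PRC (X ⨯ PZ r) (d + r) ∧
    ∀ (i : ℤ) (m : ℕ), d + r ≤ m →
      Nonempty (T.H (X ⨯ PZ r) i m ≃+ ∀ j : Fin (r + 1), T.H X (i - 2 * (j : ℕ)) (m - j))
  /-- blow-ups exist -/
  exists_blowup : ∀ (N d : ℕ) (X : Scheme.{0}) (i : X ⟶ PZ N), IsClosedImmersion i → PRC X d →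
    d ≤ N → ∃ (Y : Scheme.{0}) (π : Y ⟶ PZ N), IsBlowUp i π
  /-- the blow-up formula -/
  blowup : ∀ (N d : ℕ) (X Y : Scheme.{0}) (i : X ⟶ PZ N) (π : Y ⟶ PZ N), IsClosedImmersion i →
    PRC X d → d ≤ N → IsBlowUp i π → PRC Y (N + 1) ∧ ∀ (k : ℤ) (m : ℕ), N + 1 ≤ m →
      Nonempty (T.H Y k m ≃+
        T.H (PZ N) k m × ∀ j : Fin (N - d), T.H X (k - 2 * ((j : ℕ) + 1)) (m - (j + 1)))
  /-- projective spaces over `ℤ` -/
  space : ∀ (N m : ℕ) (i : ℤ), N + 1 ≤ m → i ≤ 2 * m → AddGroup.FG (T.H (PZ N) i m)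
  /-- in negative degrees the groups are `ℚ`-vector spaces (`H^i(X, ℚ(m))`) -/
  rational : ∀ (X : Scheme.{0}) (d m : ℕ) (i : ℤ), PRC X d → d ≤ m → i < 0 →
    ∀ n : ℕ, 0 < n → Function.Bijective fun x : T.H X i m => n • x
  /-- over a finite field, in weights above the dimension, finitely generated groups are finite
  (they embed in `ℓ`-adic cohomology up to torsion; Weil conjectures) -/
  weil : ∀ (p : ℕ) (X : Scheme.{0}) (d m : ℕ) (i : ℤ), p.Prime → PRC X d →
    Nonempty (X ⟶ Spec (CommRingCat.of (ZMod p))) → d < m →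
    AddGroup.FG (T.H X i m) → Finite (T.H X i m)

/-- The assertion of Q1 for one scheme `X` of dimension `d`: the groups `H^i(X_et, ℤ(d))`,
`0 ≤ i ≤ 2 d`, are finitely generated. -/
def Q1At (T : EtMot) (X : Scheme.{0}) (d : ℕ) : Prop :=
  ∀ i : ℤ, 0 ≤ i → i ≤ 2 * d → AddGroup.FG (T.H X i d)

/-- Q1. -/
def Q1 (T : EtMot) : Prop := ∀ (X : Scheme.{0}) (d : ℕ), PRC X d → Q1At T X d

/-- Q1 for the blow-ups of projective spaces over `ℤ` in one regular centre. -/
def Q1Rational (T : EtMot) : Prop :=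
  ∀ (N : ℕ) (Y : Scheme.{0}), OneBlowUp N Y → Q1At T Y (N + 1)

/-! ### Groups -/

lemma fg_equiv {A B : Type} [AddCommGroup A] [AddCommGroup B] (e : A ≃+ B) (h : AddGroup.FG A) :
    AddGroup.FG B :=
  AddGroup.fg_of_surjective (f := e.toAddMonoidHom) e.surjective

lemma fg_pi {n : ℕ} {A : Fin n → Type} [∀ j, AddCommGroup (A j)] (h : ∀ j, AddGroup.FG (A j)) :
    AddGroup.FG (∀ j, A j) := by
  have : ∀ j, Module.Finite ℤ (A j) := fun j => Module.Finite.iff_addGroup_fg.mpr (h j)
  exact Module.Finite.iff_addGroup_fg.mp inferInstance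

lemma fg_factor {n : ℕ} {A : Fin n → Type} [∀ j, AddCommGroup (A j)]
    (h : AddGroup.FG (∀ j, A j)) (j : Fin n) : AddGroup.FG (A j) :=
  AddGroup.fg_of_surjective (f := Pi.evalAddMonoidHom A j) (Function.surjective_eval j)

lemma fg_prod {A B : Type} [AddCommGroup A] [AddCommGroup B] (hA : AddGroup.FG A)
    (hB : AddGroup.FG B) : AddGroup.FG (A × B) := by
  have : Module.Finite ℤ A := Module.Finite.iff_addGroup_fg.mpr hA
  have : Module.Finite ℤ B := Module.Finite.iff_addGroup_fg.mpr hB
  exact Module.Finite.iff_addGroup_fg.mp inferInstance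

lemma fg_snd {A B : Type} [AddCommGroup A] [AddCommGroup B] (h : AddGroup.FG (A × B)) :
    AddGroup.FG B :=
  AddGroup.fg_of_surjective (f := AddMonoidHom.snd A B) Prod.snd_surjective

lemma fg_cast {T : EtMot} {X : Scheme.{0}} {i i' : ℤ} {m m' : ℕ} (hi : i = i') (hm : m = m')
    (h : AddGroup.FG (T.H X i m)) : AddGroup.FG (T.H X i' m') := by
  subst hi hm
  exact h

/-- A `ℚ`-vector space which is finitely generated as a group is zero. -/
lemma subsingleton_of_fg {A : Type} [AddCommGroup A] (h : AddGroup.FG A)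
    (hA : ∀ n : ℕ, 0 < n → Function.Bijective fun x : A => n • x) : Subsingleton A := by
  have hf : Module.Finite ℤ A := Module.Finite.iff_addGroup_fg.mpr h
  have h2 : (⊤ : Submodule ℤ A) ≤ Ideal.span {(2 : ℤ)} • (⊤ : Submodule ℤ A) := by
    intro x _
    obtain ⟨y, hy⟩ := (hA 2 (by norm_num)).2 x
    have hy' : (2 : ℤ) • y = x := by
      rw [← hy]
      exact_mod_cast (natCast_zsmul y 2)
    rw [← hy']
    exact Submodule.smul_mem_smul (Ideal.mem_span_singleton_self 2) Submodule.mem_top
  obtain ⟨r, hr, hr0⟩ := Submodule.exists_sub_one_mem_and_smul_eq_zero_of_fg_of_le_smul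
    (Ideal.span {(2 : ℤ)}) (⊤ : Submodule ℤ A) hf.fg_top h2
  have hrne : r ≠ 0 := by
    rintro rfl
    rw [Ideal.mem_span_singleton] at hr
    omega
  refine ⟨fun a b => ?_⟩
  have key : ∀ x : A, x = 0 := by
    intro x
    have h3 : r • x = 0 := hr0 x Submodule.mem_top
    have h4 : (r.natAbs) • x = 0 := by
      rcases Int.natAbs_eq r with hh | hh
      · rw [hh, natCast_zsmul] at h3
        simpa using h3
      · rw [hh, neg_smul, natCast_zsmul, neg_eq_zero] at h3
        simpa using h3
    exact (hA r.natAbs (Int.natAbs_pos.mpr hrne)).1 (by simpa using h4)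
  rw [key a, key b]

/-! ### The theorems -/

lemma bundle_iff {T : EtMot} (hT : IsEtMot T) {X : Scheme.{0}} {d : ℕ} (r : ℕ) (hX : PRC X d) :
    Q1At T (X ⨯ PZ r) (d + r) ↔ ∀ m : ℕ, d ≤ m → m ≤ d + r →
      ∀ k : ℤ, 2 * m - 2 * (d + r) ≤ k → k ≤ 2 * m → AddGroup.FG (T.H X k m) := by
  obtain ⟨hP, hE⟩ := hT.bundle X d r hX
  constructor
  · intro h m h1 h2 k h3 h4
    obtain ⟨e⟩ := hE (k + 2 * ((d : ℤ) + r - m)) (d + r) le_rfl
    refine fg_cast ?_ ?_ (fg_factor (fg_equiv e (h _ (by omega) (by push_cast; omega)))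
      ⟨d + r - m, by omega⟩)
    · push_cast [Nat.cast_sub h2]
      ring
    · change d + r - (d + r - m) = m
      omega
  · intro h i hi0 hi
    obtain ⟨e⟩ := hE i (d + r) le_rfl
    refine fg_equiv e.symm (fg_pi fun j => ?_)
    have hj := j.2
    have hjr : (j : ℕ) ≤ d + r := by omega
    refine h (d + r - j) (by omega) (by omega) _ ?_ ?_
    · push_cast [Nat.cast_sub hjr]
      omega
    · push_cast [Nat.cast_sub hjr] at hi ⊢
      omega

lemma blowup_iff {T : EtMot} (hT : IsEtMot T) {N d : ℕ} {X Y : Scheme.{0}} {i : X ⟶ PZ N}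
    {π : Y ⟶ PZ N} (hi : IsClosedImmersion i) (hX : PRC X d) (hdN : d ≤ N) (hπ : IsBlowUp i π) :
    Q1At T Y (N + 1) ↔ ∀ m : ℕ, d < m → m ≤ N →
      ∀ k : ℤ, 2 * m - 2 * (N + 1) ≤ k → k ≤ 2 * m → AddGroup.FG (T.H X k m) := by
  obtain ⟨-, hE⟩ := hT.blowup N d X Y i π hi hX hdN hπ
  constructor
  · intro h m h1 h2 k h3 h4
    obtain ⟨e⟩ := hE (k + 2 * ((N : ℤ) + 1 - m)) (N + 1) le_rfl
    refine fg_cast ?_ ?_ (fg_factor (fg_snd (fg_equiv e
      (h _ (by omega) (by push_cast; omega)))) ⟨N - m, by omega⟩)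
    · push_cast [Nat.cast_sub h2]
      ring
    · change N + 1 - (N - m + 1) = m
      omega
  · intro h k hk0 hk
    obtain ⟨e⟩ := hE k (N + 1) le_rfl
    refine fg_equiv e.symm (fg_prod (hT.space N (N + 1) _ le_rfl hk) (fg_pi fun j => ?_))
    have hj := j.2
    have hjN : (j : ℕ) ≤ N := by omega
    refine fg_cast (i := k - 2 * ((j : ℕ) + 1)) rfl (by omega)
      (h (N - j) (by omega) (by omega) _ ?_ ?_)
    · push_cast [Nat.cast_sub hjN]
      omega
    · push_cast [Nat.cast_sub hjN] at hk ⊢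
      omega

/-- Let `T` be étale motivic cohomology (with its known properties).

(1) For every proper regular connected arithmetic scheme `X` of dimension `d`, Q1 for `X × ℙ^r` is
equivalent to the finite generation of `H^k(X_et, ℤ(m))` for `d ≤ m ≤ d + r` and
`2 m - 2 (d + r) ≤ k ≤ 2 m` (also in negative degrees `k`).

(2) Q1 for the blow-up `Y` of `ℙ^N` over `ℤ` in a closed subscheme `X` of this kind, `d ≤ N`, is
equivalent to the finite generation of `H^k(X_et, ℤ(m))` for `d < m ≤ N` and
`2 m - 2 (N + 1) ≤ k ≤ 2 m`.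

(3) Q1 is equivalent to its strong form: finite generation of `H^i(X_et, ℤ(m))` for all `X`, all
`m ≥ d` and all `i ≤ 2 m`; the groups with `i < 0` are then zero.

(4) Q1 for the blow-ups of projective spaces over `ℤ` in one regular centre is equivalent to the
finite generation of `H^i(X_et, ℤ(m))` for all projective `X`, all `m > d` and all `i ≤ 2 m`; then the
groups with `i < 0` are zero, and all the groups are finite if `X` is a variety over a finite field. -/
theorem result (T : EtMot) (hT : IsEtMot T) :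
    -- (1)
    (∀ (X : Scheme.{0}) (d r : ℕ), PRC X d → (Q1At T (X ⨯ PZ r) (d + r) ↔
      ∀ m : ℕ, d ≤ m → m ≤ d + r → ∀ k : ℤ, 2 * m - 2 * (d + r) ≤ k → k ≤ 2 * m →
        AddGroup.FG (T.H X k m))) ∧
    -- (2)
    (∀ (N d : ℕ) (X Y : Scheme.{0}) (i : X ⟶ PZ N) (π : Y ⟶ PZ N), IsClosedImmersion i →
      PRC X d → d ≤ N → IsBlowUp i π → (Q1At T Y (N + 1) ↔
        ∀ m : ℕ, d < m → m ≤ N → ∀ k : ℤ, 2 * m - 2 * (N + 1) ≤ k → k ≤ 2 * m →
          AddGroup.FG (T.H X k m))) ∧
    -- (3)
    (Q1 T ↔ ∀ (X : Scheme.{0}) (d : ℕ), PRC X d → ∀ m : ℕ, d ≤ m →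
      (∀ i : ℤ, i ≤ 2 * m → AddGroup.FG (T.H X i m)) ∧
      ∀ i : ℤ, i < 0 → Subsingleton (T.H X i m)) ∧
    -- (4)
    (Q1Rational T ↔ ∀ (X : Scheme.{0}) (d : ℕ), Projective X → PRC X d → ∀ m : ℕ, d < m →
      (∀ i : ℤ, i ≤ 2 * m → AddGroup.FG (T.H X i m)) ∧
      (∀ i : ℤ, i < 0 → Subsingleton (T.H X i m)) ∧
      ∀ p : ℕ, p.Prime → Nonempty (X ⟶ Spec (CommRingCat.of (ZMod p))) →
        ∀ i : ℤ, i ≤ 2 * m → Finite (T.H X i m)) := by
  refine ⟨fun X d r hX => bundle_iff hT r hX,
    fun N d X Y i π hi hX hdN hπ => blowup_iff hT hi hX hdN hπ,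
    ⟨fun h X d hX m hm => ?_, fun h X d hX i _ hi => (h X d hX d le_rfl).1 i hi⟩,
    ⟨fun h X d hp hX m hm => ?_, fun h N Y hY => ?_⟩⟩
  · have h1 : ∀ i : ℤ, i ≤ 2 * m → AddGroup.FG (T.H X i m) := fun i hi =>
      (bundle_iff hT (m - d + i.natAbs) hX).1 (h _ _ (hT.bundle X d _ hX).1) m hm (by omega) i
        (by
          have h2 := neg_abs_le i
          have h3 := abs_nonneg i
          push_cast [Nat.cast_sub hm]
          linarith) hi
    exact ⟨h1, fun i hi => subsingleton_of_fg (h1 i (by omega)) (hT.rational X d m i hX hm hi)⟩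
  · have h1 : ∀ i : ℤ, i ≤ 2 * m → AddGroup.FG (T.H X i m) := by
      intro k hk
      obtain ⟨N, hN, i, hi⟩ := hp (m + k.natAbs)
      have hdN : d ≤ N := by omega
      obtain ⟨Y, π, hπ⟩ := hT.exists_blowup N d X i hi hX hdN
      exact (blowup_iff hT hi hX hdN hπ).1 (h N Y ⟨d, X, i, π, hi, hp, hX, hdN, hπ⟩) m hm
        (by omega) k (by omega) hk
    exact ⟨h1, fun i hi => subsingleton_of_fg (h1 i (by omega))
      (hT.rational X d m i hX hm.le hi),
      fun p hpr hf i hi => hT.weil p X d m i hpr hX hf hm (h1 i hi)⟩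
  · obtain ⟨d, X, i, π, hi, hp, hX, hdN, hπ⟩ := hY
    exact (blowup_iff hT hi hX hdN hπ).2 fun m h1 h2 k _ hk => (h X d hp hX m h1).1 k hk

end

end Pool.Agent.Results.MP_c71c7a_nt.StrongFormAndRationalSchemes
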